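import Pool.Agent.H891R2.VR.Main

/-!
# The virtualisation conjecture for links with lacunary twist numbers

Diagrams: `Pool.Agent.H891R2.Jones.Diagram` (`Crossing`, `Diagram`: oriented link diagrams with
marked points) and `Pool.Agent.H891R2.MT.Defs` (`Ribbon k`: a ribbon graph with `k` edges, given by
the rotation system on its `2 k` darts; `Ribbon.Planar`: connected and Euler's formula, a connected
plane graph; `Ribbon.link n`: the unoriented link diagram which is the boundary of the surface made
of one disc for every vertex and, for every edge `e`, a band with `n e` half twists, that is, a row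
of `|n e|` crossings; `Orients D U`: `D` is the unoriented diagram `U` with directions).
`Ribbon.Bridgeless S` (in `Pool.Agent.H891R2.MT.T8`): `S` is a union of cycles.
`ThreeEdgeConnected Γ` (in `Pool.Agent.H832R3.VJ.Defs2`): `Γ` is connected, also after the removal
of one or two edges.

`Pool.Agent.H832R3.VJ.Defs` (`Dia`: an oriented diagram with the finite set of its marked points;
virtual crossings are not recorded, so these are the virtual link diagrams up to detour moves;
`Dia.IsLink`; `Move`: relabelling, subdivision of strands and the classical Reidemeister moves, that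
is, the generalised Reidemeister moves).  `Pool.Agent.H891R2.VR.Main` (`virtualise x`: two virtual
crossings before and after the crossing `x`, over- and under-strand exchanged; `Virt`: one crossing
is virtualised; `Step`: a move or virtualisation; `Related`: finite sequences of steps and their
inverses).
-/

set_option autoImplicit false

namespace Pool.Agent.Results.MP_31c440_gt.PlaneLinks

open Pool.Agent.H891R2.Jones Pool.Agent.H891R2.MT Pool.Agent.H832R3.VJ Pool.Agent.H891R2.VR

/-- Let `Γ`, `Γ'` be three-edge-connected plane graphs with at most `K` edges, and let `n`, `n'` be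
integer vectors such that the sums of `n` over any two different sets of edges differ by more than
`8 K + 8`, and the same for `n'`.  Let `D`, `D'` be the link diagrams with `|n e|` (`|n' e|`)
crossings on the edge `e` of `Γ` (`Γ'`), with any directions.  If `D` and `D'` are related by a
finite sequence of generalised Reidemeister moves and virtualisations, then there is a bijection `σ`
between the edges with `n = n' ∘ σ` which maps the unions of cycles of `Γ` to the unions of cycles
of `Γ'`. -/
theorem result (K k k' : ℕ) (hk0 : 0 < k) (hk0' : 0 < k') (hk : k ≤ K) (hk' : k' ≤ K)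
    (Γ : Ribbon k) (Γ' : Ribbon k') (hΓ : Γ.Planar) (hΓ' : Γ'.Planar)
    (h3 : ThreeEdgeConnected Γ) (h3' : ThreeEdgeConnected Γ') (n : Fin k → ℤ) (n' : Fin k' → ℤ)
    (hn : ∀ S S' : Finset (Fin k), S ≠ S' → 8 * K + 8 < |∑ e ∈ S, n e - ∑ e ∈ S', n e|)
    (hn' : ∀ S S' : Finset (Fin k'), S ≠ S' → 8 * K + 8 < |∑ e ∈ S, n' e - ∑ e ∈ S', n' e|)
    (D : Diagram (Ribbon.Pt n)) (D' : Diagram (Ribbon.Pt n')) (hD : Orients D (Γ.link n))
    (hD' : Orients D' (Γ'.link n')) 
    (h : Related ⟨_, inferInstance, D⟩ ⟨_, inferInstance, D'⟩) :
    ∃ σ : Fin k ≃ Fin k', (∀ e, n e = n' (σ e)) ∧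
      ∀ S, Γ.Bridgeless S ↔ Γ'.Bridgeless (S.map σ.toEmbedding) := by
  have h2 := fPoly_related _ _ h
  exact complete_of_eq hk0 hk0' hk hk' Γ Γ' hΓ hΓ' h3 h3' n n' hn hn' D D' hD hD' h2

end Pool.Agent.Results.MP_31c440_gt.PlaneLinks
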