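import Pool.Agent.H891R2.VR.Main

/-!
# Virtualisations do not change the twist numbers of generic diagrams

Diagrams: `Pool.Agent.H891R2.Jones.Diagram` (`Crossing`, `Diagram`, `Diagram.IsClosed`),
`Pool.Agent.H891R2.MT.Defs` (`UDiagram`; `Orients D U`: `D` is the unoriented diagram `U` with
directions) and `Pool.Agent.H891R2.SI.Defs`:

* `Sites k`: a diagram `O` with `k` open boxes (sites), each with four corners; planarity is not
  required; `O.Connected`: the diagram is connected (each site being one piece);
* `O.fill w`, `w ∈ ℤ^k`: the site `e` is filled with two vertical strands twisted around each other, a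
  row of `|w e|` crossings of the kind given by the sign of `w e`;
* `O.cut`: every site is filled with a cup and a cap, that is, all sites are cut through;
* `det U`: the determinant of a diagram, the absolute value of its bracket at `A = e^{πi/4}`.

`Pool.Agent.H891R2.TR.Defs`: `Generic M w`: every integer combination `∑ a e * w e` with
`|a e| ≤ 8`, not all `a e = 0`, has absolute value more than `M`.

`Pool.Agent.H832R3.VJ.Defs` (`Dia`: an oriented diagram with the finite set of its marked points;
virtual crossings are not recorded, so these are the virtual link diagrams up to detour moves;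
`Dia.IsLink`; `Move`: relabelling, subdivision of strands and the classical Reidemeister moves, that
is, the generalised Reidemeister moves).  `Pool.Agent.H891R2.VR.Main` (`virtualise x`: two virtual
crossings before and after the crossing `x`, over- and under-strand exchanged; `Virt`: one crossing
is virtualised; `Step`: a move or virtualisation; `Related`: finite sequences of steps and their
inverses).
-/

set_option autoImplicit false

namespace Pool.Agent.Results.MP_31c440_gt.TwistNumbers

open Pool.Agent.H891R2.Jones Pool.Agent.H891R2.MT Pool.Agent.H891R2.SI Pool.Agent.H891R2.TR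
  Pool.Agent.H832R3.VJ Pool.Agent.H891R2.VR

/-- Let `O`, `O'` be connected diagrams with at most `C` crossings and with `k`, `k'` sites
(`1 ≤ k, k' ≤ K`), such that the links `O.cut`, `O'.cut` have nonzero determinants (for classical
diagrams: for instance, such that they are knots), and let `w ∈ ℤ^k`, `w' ∈ ℤ^k'` be generic, with
arbitrary signs.  If the links `O.fill w` and `O'.fill w'`, with any directions, are related by a
finite sequence of generalised Reidemeister moves and virtualisations, then `k = k'` and, up to the
order, the twist numbers `w e` and `w' e` differ by at most `12 (K + C)`. -/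
theorem result (K C k k' : ℕ) (hk0 : 0 < k) (hk0' : 0 < k') (hk : k ≤ K) (hk' : k' ≤ K) 
    (O : Sites k) (O' : Sites k') (hO : O.Connected) (hO' : O'.Connected) 
    (hC : O.crossings.length ≤ C) (hC' : O'.crossings.length ≤ C) 
    (hd : det O.cut ≠ 0) (hd' : det O'.cut ≠ 0) (w : Fin k → ℤ) (w' : Fin k' → ℤ) 
    (hw : Generic ((3 * K + 1) * (12 * (K + C))) w) 
    (hw' : Generic ((3 * K + 1) * (12 * (K + C))) w') 
    (D : Diagram (O.P ⊕ Ribbon.Pt w)) (D' : Diagram (O'.P ⊕ Ribbon.Pt w')) 
    (hD : Orients D (O.fill w)) (hD' : Orients D' (O'.fill w')) (hc : D.IsClosed) 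
    (hc' : D'.IsClosed) (h : Related ⟨_, inferInstance, D⟩ ⟨_, inferInstance, D'⟩) : 
    ∃ σ : Fin k ≃ Fin k', ∀ e, |w e - w' (σ e)| ≤ 12 * (K + C) := by
  have h2 := fPoly_related _ _ h
  exact twist_of_eq K C hk0 hk0' hk hk' O O' hO hO' hC hC' hd hd' w w' hw hw' D D' hD hD' hc hc' h2

end Pool.Agent.Results.MP_31c440_gt.TwistNumbers
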